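import Pool.Agent.K4H78.TW.Fin
import Pool.Agent.K4H78.TW.Dense2
import Pool.Agent.K4H78.TW.Spec

/-!
# Excluding an induced forest: dense pairs of neighbourhoods, nearly complete pairs of size linear in
the chromatic number, and many closed walks of length four

Let `F` be a forest with `m` vertices and `G` a finite graph without an induced copy of `F`.

1. For every spanning subgraph `H` of `G` without isolated vertices there are vertices `x`, `y` such
   that a proportion of more than `1 / (m + 1) ^ 2` of the pairs in `N_H(x) × N_H(y)` are pairs of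
   equal or `G`-adjacent vertices.
2. If the clique number is bounded, then for every `ε > 0` there is `δ > 0` such that a graph `G`
   without a proper `c`-colouring contains disjoint sets `A`, `B` of at least `δ c` vertices each, such
   that every vertex of `A` is adjacent to at least `(1 - ε) |B|` vertices of `B` and conversely;
   moreover `A` and `B` are contained in neighbourhoods of vertices.  So the chromatic number of `G` is
   at most a constant times the size of the largest nearly complete pair in `G`.
3. If all degrees are between `d` and `K d`, then `G` has at least `c n d ^ 3` closed walks of length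
   four, where `n` is the number of vertices and `c = c(F, K) > 0`, and
4. if `d ≥ 1`, then the adjacency matrix of `G` has at least `η n / d` eigenvalues of absolute value at
   least `η d`, where `η = η(F, K) > 0`.

There is no assumption on the clique number in 1, 3 and 4.

Proof.  `F` is an induced subgraph of a tree `T` with `m + 1` vertices.  Take the random map of `T` to
`G` in which the first vertex is distributed according to the stationary measure of the random walk
on `H`, and each further vertex is a uniformly distributed `H`-neighbour of the image of its parent.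
As this walk is reversible, the images of two vertices of `T` at distance `r` are the ends of a
stationary random walk of length `r`.  If `r ≥ 2`, then these two ends are, given the rest of the walk,
independent and uniformly distributed in two neighbourhoods.  So if 1 were wrong, then the random map
would be an induced embedding with positive probability.  Part 2 follows with the packing lemma (the
graph has bounded Vapnik–Chervonenkis dimension), applied in a subgraph of minimum degree at least `c`.
For 3 the probability that the ends of a stationary walk of length `r` are adjacent is bounded by the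
number of closed walks of length four, with the Cauchy–Schwarz inequality.  Part 4 follows from 3.
-/

namespace Pool.Agent.Results.MP_763321_co.DensePairs

open Pool.Agent.K4H78.TW

theorem ni_eq {V : Type} [Fintype V] [DecidableEq V] (G : SimpleGraph V) [DecidableRel G.Adj]
    (B : Finset V) (v : V) : ni G B v = B.filter (G.Adj v) := by
  ext z
  rw [mem_ni, Finset.mem_filter]

theorem pe_eq {V : Type} [Fintype V] [DecidableEq V] (G : SimpleGraph V) [DecidableRel G.Adj]
    (A B : Finset V) : pe G A B = ((A ×ˢ B).filter fun p => p.1 = p.2 ∨ G.Adj p.1 p.2).card := by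
  classical
  unfold pe
  rw [Finset.card_filter, Finset.sum_product]
  apply Finset.sum_congr rfl
  intro a _
  rw [Finset.card_filter]
  apply Finset.sum_congr rfl
  intro b _
  congr

theorem part1 {m : ℕ} (F : SimpleGraph (Fin m)) (hF : F.IsAcyclic) (V : Type) [Fintype V]
    [DecidableEq V] [Nonempty V] (G H : SimpleGraph V) [DecidableRel G.Adj] [DecidableRel H.Adj]
    (hHG : H ≤ G) (hFG : ¬ F.IsIndContained G) (hdeg : ∀ v, 0 < H.degree v) :
    ∃ x y, H.degree x * H.degree y < (m + 1) ^ 2 *
      ((H.neighborFinset x ×ˢ H.neighborFinset y).filter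
        fun p => p.1 = p.2 ∨ G.Adj p.1 p.2).card := by
  obtain ⟨x, y, h⟩ := pairs F hF V inferInstance G H hHG ⟨fun e => hFG ⟨e⟩⟩ (by
    intro v
    rw [ni_univ, SimpleGraph.card_neighborFinset_eq_degree]
    exact hdeg v)
  refine ⟨x, y, ?_⟩
  rw [pe_eq, ni_univ, ni_univ, SimpleGraph.card_neighborFinset_eq_degree,
    SimpleGraph.card_neighborFinset_eq_degree] at h
  exact h

theorem part2 {m : ℕ} (F : SimpleGraph (Fin m)) (hF : F.IsAcyclic) (k : ℕ) (ε : ℝ)
    (hε : 0 < ε) : ∃ δ : ℝ, 0 < δ ∧ ∀ (V : Type) [Fintype V] [DecidableEq V] (G : SimpleGraph V)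
      [DecidableRel G.Adj], G.CliqueFree k → ¬ F.IsIndContained G → ∀ c : ℕ, 1 ≤ c →
      ¬ G.Colorable c → ∃ A B : Finset V, Disjoint A B ∧ δ * c ≤ A.card ∧ δ * c ≤ B.card ∧
        (∀ a ∈ A, (1 - ε) * B.card ≤ ((B.filter (G.Adj a)).card : ℝ)) ∧
        (∀ b ∈ B, (1 - ε) * A.card ≤ ((A.filter (G.Adj b)).card : ℝ)) ∧
        ∃ x y, A ⊆ G.neighborFinset x ∧ B ⊆ G.neighborFinset y := by
  obtain ⟨δ, hδ, h⟩ := near_pairs_chromatic F hF k ε hε
  refine ⟨δ, hδ, ?_⟩
  intro V _ _ G _ hfree hFG c hc hcol
  obtain ⟨A, B, ⟨h1, h2, h3⟩, hA, hB, x, y, hx, hy⟩ :=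
    h V G hfree ⟨fun e => hFG ⟨e⟩⟩ c hc hcol
  have key : ∀ (X : Finset V) (v : V), ((X.filter (G.Adj v)).card : ℝ) + (nn G X v).card =
      X.card := by
    intro X v
    rw [← ni_eq]
    exact_mod_cast ni_add_nn G X v
  refine ⟨A, B, h1, hA, hB, ?_, ?_, x, y, by rw [← ni_univ]; exact hx,
    by rw [← ni_univ]; exact hy⟩
  · intro a ha
    have := h2 a ha
    have := key B a
    linarith
  · intro b hb
    have := h3 b hb
    have := key A b
    linarith

theorem part3 {m : ℕ} (F : SimpleGraph (Fin m)) (hF : F.IsAcyclic) (K : ℝ) :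
    ∃ c : ℝ, 0 < c ∧ ∀ (V : Type) [Fintype V] [DecidableEq V] (G : SimpleGraph V)
      [DecidableRel G.Adj], ¬ F.IsIndContained G → ∀ d : ℝ, 0 ≤ d → (∀ v, d ≤ G.degree v) →
      (∀ v, G.degree v ≤ K * d) →
      c * Fintype.card V * d ^ 3 ≤
        ∑ x, ∑ y, ((G.neighborFinset x ∩ G.neighborFinset y).card : ℝ) ^ 2 := by
  obtain ⟨c, hc, h⟩ := four F hF (max K 1) (le_max_right _ _)
  refine ⟨c, hc, ?_⟩
  intro V _ _ G _ hFG d hd hlow hup
  have h1 := h V G ⟨fun e => hFG ⟨e⟩⟩ d hd (by
    intro v
    rw [ni_univ, SimpleGraph.card_neighborFinset_eq_degree]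
    exact hlow v) (by
    intro v
    rw [ni_univ, SimpleGraph.card_neighborFinset_eq_degree]
    exact (hup v).trans (mul_le_mul_of_nonneg_right (le_max_left _ _) hd))
  refine h1.trans (le_of_eq ?_)
  apply Finset.sum_congr rfl
  intro x _
  apply Finset.sum_congr rfl
  intro y _
  congr 3
  rw [ni_univ]
  ext z
  rw [mem_ni, Finset.mem_inter, SimpleGraph.mem_neighborFinset, SimpleGraph.mem_neighborFinset]

theorem part4 {m : ℕ} (F : SimpleGraph (Fin m)) (hF : F.IsAcyclic) (K : ℝ) :
    ∃ η : ℝ, 0 < η ∧ ∀ (V : Type) [Fintype V] [DecidableEq V] (G : SimpleGraph V)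
      [DecidableRel G.Adj] (hG : (G.adjMatrix ℝ).IsHermitian), ¬ F.IsIndContained G →
      ∀ d : ℝ, 1 ≤ d → (∀ v, d ≤ G.degree v) → (∀ v, G.degree v ≤ K * d) →
      η * Fintype.card V / d ≤
        ((Finset.univ.filter fun i => η * d ≤ |hG.eigenvalues i|).card : ℝ) := by
  obtain ⟨η, hη, h⟩ := large_eigenvalues F hF (max K 1) (le_max_right _ _)
  refine ⟨η, hη, ?_⟩
  intro V _ _ G _ hG hFG d hd hlow hup
  have hd0 : 0 < d := by linarith
  have h1 := h V G ⟨fun e => hFG ⟨e⟩⟩ d hd (by
    intro v
    rw [ni_univ, SimpleGraph.card_neighborFinset_eq_degree]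
    exact hlow v) (by
    intro v
    rw [ni_univ, SimpleGraph.card_neighborFinset_eq_degree]
    exact (hup v).trans (mul_le_mul_of_nonneg_right (le_max_left _ _) hd0.le))
  have hA : am G = G.adjMatrix ℝ := by
    ext x y
    rw [SimpleGraph.adjMatrix_apply]
    unfold am
    by_cases hxy : G.Adj x y
    · rw [if_pos hxy, if_pos hxy]
    · rw [if_neg hxy, if_neg hxy]
  have key : ∀ (A : Matrix V V ℝ) (hA' : A.IsHermitian), am G = A →
      η * Fintype.card V ≤
        d * ((Finset.univ.filter fun i => η * d ≤ |hA'.eigenvalues i|).card : ℝ) := by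
    rintro A hA' rfl
    exact h1
  have h2 := key _ hG hA
  rw [div_le_iff₀ hd0]
  linarith

theorem result :
    ∀ (m : ℕ) (F : SimpleGraph (Fin m)), F.IsAcyclic →
      -- 1. dense pairs of neighbourhoods, in every spanning subgraph
      (∀ (V : Type) [Fintype V] [DecidableEq V] [Nonempty V] (G H : SimpleGraph V)
        [DecidableRel G.Adj] [DecidableRel H.Adj], H ≤ G → ¬ F.IsIndContained G →
        (∀ v, 0 < H.degree v) →
        ∃ x y, H.degree x * H.degree y < (m + 1) ^ 2 *
          ((H.neighborFinset x ×ˢ H.neighborFinset y).filter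
            fun p => p.1 = p.2 ∨ G.Adj p.1 p.2).card) ∧
      -- 2. nearly complete pairs of size linear in the chromatic number
      (∀ (k : ℕ) (ε : ℝ), 0 < ε → ∃ δ : ℝ, 0 < δ ∧ ∀ (V : Type) [Fintype V] [DecidableEq V]
        (G : SimpleGraph V) [DecidableRel G.Adj], G.CliqueFree k → ¬ F.IsIndContained G →
        ∀ c : ℕ, 1 ≤ c → ¬ G.Colorable c →
        ∃ A B : Finset V, Disjoint A B ∧ δ * c ≤ A.card ∧ δ * c ≤ B.card ∧
          (∀ a ∈ A, (1 - ε) * B.card ≤ ((B.filter (G.Adj a)).card : ℝ)) ∧
          (∀ b ∈ B, (1 - ε) * A.card ≤ ((A.filter (G.Adj b)).card : ℝ)) ∧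
          ∃ x y, A ⊆ G.neighborFinset x ∧ B ⊆ G.neighborFinset y) ∧
      -- 3. closed walks of length four in nearly regular graphs
      (∀ K : ℝ, ∃ c : ℝ, 0 < c ∧ ∀ (V : Type) [Fintype V] [DecidableEq V] (G : SimpleGraph V)
        [DecidableRel G.Adj], ¬ F.IsIndContained G → ∀ d : ℝ, 0 ≤ d → (∀ v, d ≤ G.degree v) →
        (∀ v, G.degree v ≤ K * d) →
        c * Fintype.card V * d ^ 3 ≤
          ∑ x, ∑ y, ((G.neighborFinset x ∩ G.neighborFinset y).card : ℝ) ^ 2) ∧
      -- 4. large eigenvalues of nearly regular graphs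
      (∀ K : ℝ, ∃ η : ℝ, 0 < η ∧ ∀ (V : Type) [Fintype V] [DecidableEq V] (G : SimpleGraph V)
        [DecidableRel G.Adj] (hG : (G.adjMatrix ℝ).IsHermitian), ¬ F.IsIndContained G →
        ∀ d : ℝ, 1 ≤ d → (∀ v, d ≤ G.degree v) → (∀ v, G.degree v ≤ K * d) →
        η * Fintype.card V / d ≤
          ((Finset.univ.filter fun i => η * d ≤ |hG.eigenvalues i|).card : ℝ)) := by
  intro m F hF
  refine ⟨?_, fun k ε hε => part2 F hF k ε hε, fun K => part3 F hF K, fun K => part4 F hF K⟩
  intro V _ _ _ G H _ _ hHG hFG hdeg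
  exact part1 F hF V G H hHG hFG hdeg

end Pool.Agent.Results.MP_763321_co.DensePairs
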