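import Pool.Agent.K4H78.GA.Orb
import Pool.Agent.K4H16.GS.Bohr

/-!
# Gyárfás–Sumner for the Cayley graphs of all finite abelian groups

For every forest `F` and every `r` there is a function `f` such that `χ(G) ≤ f(ω(G))` for every graph
`G` without an induced `F` which has an abelian group of automorphisms with at most `r` orbits on the
vertices.  For `r = 1` these are the Cayley graphs of the finite abelian groups: the Gyárfás–Sumner
conjecture holds for the class of all Cayley graphs of all finite abelian groups, in all clique
numbers.  Further examples are the Cayley graphs of the finite groups with an abelian subgroup of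
index at most `r`, and the graphs with a semiregular automorphism with at most `r` cycles.

The reduction to Cayley graphs is easy (each orbit induces a Cayley graph of a quotient of the group).
Let `G` be the Cayley graph of a finite abelian group.

Proof.  `A` is the symmetric set of generators.  A *local structure* is a symmetric set `Λ` with a
map `θ : Λ → ℝ ^ D` which is additive where the norms allow it; its balls `Λ(r)`, `r ≤ 1`, satisfy
`|Λ(1/2)| ≤ N(D, r) |Λ(r)|`.  By induction on `k` we prove for all `D`: if no clique in `Λ` has more
than `k` elements, then the edges inside some ball `Λ(ε)` can be coloured with `C` colours.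

1. (Trees from lists.)  A list of generators such that no signed sub-sum with at least two terms of a
   certain shape (the sums `w + b`, where `b` is an element of the list and `w` a signed sub-sum of
   later elements) is a generator or `0` gives every tree with as many edges as an induced subgraph.
2. (Slow and fast steps.)  Sets `V 0 = {0} ⊆ V 1 ⊆ ...` and `B i ⊆ A \ V i` are constructed; `V (i+1)`
   adds to `V i` the `z` with `z ± b ∈ (A ∩ U i) ∪ V i` for a positive proportion of the `b ∈ B i`.
   Let `X(r)` be `(A \ V i) ∩ Λ(r)`.  If `|X(r)|` grows slowly between `ρ` and `M ρ`, then `B i ⊆ X(ρ)`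
   is a structured subset of positive proportion found with the theorem of Balog, Szemerédi and
   Gowers, and `U i = Λ(M ρ)`; if it jumps at `r`, then `B i` is the part of `X(r)` in a small cell
   near the sphere of radius `r`, and `U i = Λ(r - γ)`.  A generic list from many steps of the same
   kind (all slow, or all fast with almost the same direction) satisfies 1.: the sums which are
   outside of `Λ(r - γ)` are so for geometric reasons.  So after boundedly many steps `A ∩ Λ(ε)` is
   covered by boundedly many symmetric sets `S ⊆ A ∩ Λ(1/20)` of small tripling.
3. The translates of `A` have bounded Vapnik–Chervonenkis dimension, hence a polynomial packing bound,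
   and at a suitable scale the near-periods of `A` in `2 S` form a set `E` of small doubling such that
   `S` is covered by boundedly many translates of `E`.
4. (Bohr sets.)  `8 E` contains a local structure `Λ'` of bounded dimension with `|E| ≤ L |Λ'(1/2)|`
   (theorem of Sanders, and Bogolyubov's argument in the large spectrum).
5. A clique in `Λ'` can be translated and extended by an element of `S`: the cliques in `Λ'` have at
   most `k - 1` elements and by induction a ball `Λ'(ε')` can be coloured.  The group is divided into
   regions which are contained in translates of `Λ'(ε'/2)` and contain disjoint translates of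
   `Λ'(ε'/4)`; the graph of the regions has bounded degree in the directions of `S`.
-/

namespace Pool.Agent.Results.MP_763321_co.FiniteAbelianCayley

theorem result :
    ∀ (m : ℕ) (F : SimpleGraph (Fin m)), F.IsAcyclic → ∀ r : ℕ,
      ∃ f : ℕ → ℕ, ∀ (V : Type) [Fintype V] (G : SimpleGraph V) (Γ : Type) [CommGroup Γ]
        [MulAction Γ V], (∀ (g : Γ) (v w : V), G.Adj v w → G.Adj (g • v) (g • w)) →
        Nat.card (MulAction.orbitRel.Quotient Γ V) ≤ r → ¬ F.IsIndContained G →
        G.chromaticNumber ≤ f G.cliqueNum := by
  intro m F hF r
  obtain ⟨f, hf⟩ := Pool.Agent.K4H78.GA.orb_forest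
    (fun K => Pool.Agent.K4H16.GS.bohr K) F hF r
  exact ⟨f, fun V _ G Γ _ _ hG hr hind => (hf V G Γ hG hr hind).chromaticNumber_le⟩

/-- The special case of the Cayley graphs of finite abelian groups. -/
theorem cayley (m : ℕ) (F : SimpleGraph (Fin m)) (hF : F.IsAcyclic) :
    ∃ f : ℕ → ℕ, ∀ (Γ : Type) [AddCommGroup Γ] [Fintype Γ] (A : Set Γ),
      ¬ F.IsIndContained (SimpleGraph.addCayley A) →
      (SimpleGraph.addCayley A).chromaticNumber ≤ f (SimpleGraph.addCayley A).cliqueNum := by
  obtain ⟨f, hf⟩ := result m F hF 1
  refine ⟨f, fun Γ _ _ A hind => ?_⟩
  let _ : MulAction (Multiplicative Γ) Γ :=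
    { smul := fun g v => g.toAdd + v
      one_smul := fun v => zero_add v
      mul_smul := fun g h v => add_assoc _ _ _ }
  refine hf Γ (SimpleGraph.addCayley A) (Multiplicative Γ) ?_ ?_ hind
  · intro g v w h
    rw [SimpleGraph.addCayley_adj'] at h ⊢
    obtain ⟨hne, a, ha, h⟩ := h
    refine ⟨fun h' => hne (add_left_cancel (a := g.toAdd) h'), a, ha, ?_⟩
    rcases h with h | h
    · left
      show g.toAdd + v + a = g.toAdd + w
      rw [← h, add_assoc]
    · right
      show g.toAdd + v = g.toAdd + w + a
      rw [h, add_assoc]
  · have h1 : Subsingleton (MulAction.orbitRel.Quotient (Multiplicative Γ) Γ) := by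
      constructor
      intro a b
      induction a using Quotient.inductionOn with
      | h a =>
        induction b using Quotient.inductionOn with
        | h b =>
          apply Quotient.sound
          exact ⟨Multiplicative.ofAdd (a - b), sub_add_cancel a b⟩
    exact Finite.card_le_one_iff_subsingleton.2 h1

end Pool.Agent.Results.MP_763321_co.FiniteAbelianCayley
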