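import Pool.Agent.K4H78.TW.Fin

/-!
# Graphs without an induced forest have near-twins; the conjecture for graphs with few near-twins

Let `F` be a forest and let `G` be a finite graph with bounded clique number, without an induced copy
of `F`, and *balanced*: `deg u ≤ K deg v` for adjacent `u`, `v` (for instance regular).

1. For each `ε > 0` there is `δ = δ(F, ω, K, ε) > 0` such that within distance `|F|` of every vertex
   there is a vertex `v` with at least `δ deg v` near-twins, that is, vertices `u` with
   `|N(u) Δ N(v)| ≤ ε deg v`.
2. Hence the Gyárfás–Sumner conjecture holds for the balanced graphs in which no vertex `v` has more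
   than `M` vertices `u` with `|N(u) Δ N(v)| ≤ ε deg v`: these graphs have bounded degree.
3. In particular it holds for the balanced graphs in which any two different vertices `u`, `v` have
   at most `(1 - ε) deg v` common neighbours.

Proof of 1.  Let `d` be a lower bound for the degrees near the given vertex.  A tree containing `F` is
built vertex by vertex as an induced subgraph, with reserved sets `Q j` of at least `α d` neighbours of
the vertex `w j`, which contain no neighbour of the other vertices and are pairwise sparse.  Let `x`
run through `Q j`.  At least half of the `x` have at least `|Q j| / 2 k` non-neighbours in `Q j` (there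
is no large clique), most have few neighbours in the other sets `Q l`, and by the packing lemma (graphs
without a large clique and an induced `F` have bounded Vapnik–Chervonenkis dimension) a positive
proportion `X` of them have nearly the same neighbours in `Q j`.  Let `R` be the set of the vertices
which are adjacent to a vertex `w l` or to at least half of a reserved set; it has at most `3 t K d`
elements.  If the neighbourhoods of most `x ∈ X` were nearly contained in `R`, then the packing lemma
in `R` would give many near-twins.  So some `x ∈ X` has `ε d / 4` neighbours outside of `R`; by the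
packing lemma a positive proportion of them have nearly the same neighbours in all the reserved sets.
These form the reserved set of the new vertex `x`, and the other reserved sets are reduced to the
non-neighbours of `x` and of one of the new reserved vertices.
-/

namespace Pool.Agent.Results.MP_763321_co.NearTwins

theorem result :
    ∀ (m : ℕ) (F : SimpleGraph (Fin m)), F.IsAcyclic → ∀ (k : ℕ) (K ε : ℝ), 0 < ε →
      -- 1. near-twins close to every vertex
      (∃ δ : ℝ, 0 < δ ∧ ∀ (V : Type) [Fintype V] [DecidableEq V] (G : SimpleGraph V)
        [DecidableRel G.Adj], G.CliqueFree k → ¬ F.IsIndContained G →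
        (∀ u v, G.Adj u v → (G.degree u : ℝ) ≤ K * G.degree v) →
        ∀ w, ∃ v, (∃ p : G.Walk w v, p.length ≤ m) ∧
          δ * G.degree v ≤ ((Finset.univ.filter fun u =>
            ((symmDiff (G.neighborFinset u) (G.neighborFinset v)).card : ℝ) ≤
              ε * G.degree v).card : ℝ)) ∧
      -- 2. the conjecture for balanced graphs with few near-twins
      (∀ M : ℕ, ∃ c : ℕ, ∀ (V : Type) [Fintype V] [DecidableEq V] (G : SimpleGraph V)
        [DecidableRel G.Adj], G.CliqueFree k → ¬ F.IsIndContained G →
        (∀ u v, G.Adj u v → (G.degree u : ℝ) ≤ K * G.degree v) →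
        (∀ v, 0 < G.degree v → (Finset.univ.filter fun u =>
          ((symmDiff (G.neighborFinset u) (G.neighborFinset v)).card : ℝ) ≤
            ε * G.degree v).card ≤ M) →
        (∀ v, G.degree v < c) ∧ G.Colorable c) ∧
      -- 3. the conjecture for balanced graphs with codegrees bounded away from the degrees
      (∃ c : ℕ, ∀ (V : Type) [Fintype V] [DecidableEq V] (G : SimpleGraph V)
        [DecidableRel G.Adj], G.CliqueFree k → ¬ F.IsIndContained G →
        (∀ u v, G.Adj u v → (G.degree u : ℝ) ≤ K * G.degree v) →
        (∀ u v, u ≠ v → ((G.neighborFinset u ∩ G.neighborFinset v).card : ℝ) ≤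
          (1 - ε) * G.degree v) →
        (∀ v, G.degree v < c) ∧ G.Colorable c) := by
  intro m F hF k K ε hε
  have key : ∀ (V : Type) (G : SimpleGraph V), ¬ F.IsIndContained G → IsEmpty (F ↪g G) :=
    fun V G h => ⟨fun e => h ⟨e⟩⟩
  refine ⟨?_, ?_, ?_⟩
  · obtain ⟨δ, hδ, h⟩ := Pool.Agent.K4H78.TW.twins_forest F hF k K ε hε
    exact ⟨δ, hδ, fun V _ _ G _ h1 h2 h3 => h V G h1 (key V G h2) h3⟩
  · intro M
    obtain ⟨c, h⟩ := Pool.Agent.K4H78.TW.gs_few_twins F hF k K ε hε M
    exact ⟨c, fun V _ _ G _ h1 h2 h3 h4 => h V G h1 (key V G h2) h3 h4⟩
  · obtain ⟨c, h⟩ := Pool.Agent.K4H78.TW.gs_codegree F hF k K ε hε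
    exact ⟨c, fun V _ _ G _ h1 h2 h3 h4 => h V G h1 (key V G h2) h3 h4⟩

end Pool.Agent.Results.MP_763321_co.NearTwins
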