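import Pool.Agent.K4H78.GA.BoxMain
import Pool.Agent.K4H16.GS.Bohr

/-!
# Gyárfás–Sumner for Toeplitz graphs and box graphs

A Toeplitz graph is a graph on `{0, ..., n - 1}` in which the adjacency of `x` and `y` only depends on
`|x - y|`.  More generally a box graph of dimension `D` has as vertices the points of a box
`∏ [0, N i)` in `ℤ ^ D`, and the adjacency of `v` and `w` only depends on `± (v - w)`.  For every forest
`F` and every `D` there is a function `f` such that `χ(G) ≤ f(ω(G))` for every box graph `G` of
dimension `D` without an induced `F` (the side lengths and the set `A` of differences are arbitrary).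

These graphs are not vertex-transitive (and `F` is only excluded inside the box): a Toeplitz graph is
in general not an induced subgraph of a Cayley graph of a finite abelian group without induced `F`,
and the theorem does not follow from the one for Cayley graphs (`FiniteAbelianCayley`, same folder).

Proof.  The local form of the theorem for Cayley graphs: for a symmetric set `A` in a finite abelian
group, and a local structure `Λ` of dimension `D` (see `FiniteAbelianCayley`), if

* no list of elements of `A ∩ Λ` has the property 1. there (which gives all trees with as many edges),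
* any `M` elements of `A ∩ Λ` have a signed sub-sum with at least two terms in `A ∪ {0}`,
* the translates of `A` satisfy the packing bound inside the `J`-fold sumset of `Λ`, where `J` depends
  on `D`, the tree and the clique number,

then the edges inside some ball `Λ(ε)` can be coloured with boundedly many colours.  It is applied to
`(ℤ / m) ^ D` for a large `m`, to the residues of `A` and to the box `Λ` with sides `N i / c` where `c`
is a large constant, so that all the sums which occur are differences of points of the box and
nothing is changed by the reduction modulo `m`.  The box is then covered by boundedly many translates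
of `Λ(ε / 2)`.
-/

namespace Pool.Agent.Results.MP_763321_co.ToeplitzGraphs

/-- The graph on the points of the box `∏ [0, N i)` of `ℤ ^ D` in which two distinct points `v` and `w`
are adjacent when `w - v ∈ A` or `v - w ∈ A`.  For `D = 1` these are the Toeplitz graphs. -/
def BoxGraph {D : ℕ} (N : Fin D → ℕ) (A : Set (Fin D → ℤ)) : SimpleGraph (∀ i, Fin (N i)) where
  Adj v w := v ≠ w ∧ ((fun i => ((w i : ℕ) : ℤ) - ((v i : ℕ) : ℤ)) ∈ A ∨
    (fun i => ((v i : ℕ) : ℤ) - ((w i : ℕ) : ℤ)) ∈ A)
  symm := ⟨fun _ _ h => ⟨h.1.symm, h.2.symm⟩⟩
  loopless := ⟨fun _ h => h.1 rfl⟩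

theorem result :
    ∀ (m : ℕ) (F : SimpleGraph (Fin m)), F.IsAcyclic → ∀ D : ℕ,
      ∃ f : ℕ → ℕ, ∀ (N : Fin D → ℕ) (A : Set (Fin D → ℤ)),
        ¬ F.IsIndContained (BoxGraph N A) →
        (BoxGraph N A).chromaticNumber ≤ f (BoxGraph N A).cliqueNum := by
  intro m F hF D
  obtain ⟨f, hf⟩ := Pool.Agent.K4H78.GA.box_forest
    (fun K => Pool.Agent.K4H16.GS.bohr K) F hF D
  refine ⟨f, fun N A hind => ?_⟩
  have h1 : BoxGraph N A = Pool.Agent.K4H78.GA.boxG N A := by
    ext v w
    rw [Pool.Agent.K4H78.GA.boxG_adj]
    show (v ≠ w ∧ _) ↔ _
    have h2 : (v ≠ w) ↔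
        ((fun i => ((w i : ℕ) : ℤ) - ((v i : ℕ) : ℤ)) : Fin D → ℤ) ≠ 0 := by
      rw [not_iff_not]
      constructor
      · intro h
        rw [h]
        funext i
        simp
      · intro h
        funext i
        have h3 := congrFun h i
        simp only [Pi.zero_apply] at h3
        apply Fin.ext
        omega
    have h4 : (-(fun i => ((w i : ℕ) : ℤ) - ((v i : ℕ) : ℤ)) : Fin D → ℤ) =
        fun i => ((v i : ℕ) : ℤ) - ((w i : ℕ) : ℤ) := by
      funext i
      simp
    rw [h2, h4]
  rw [h1] at hind ⊢
  exact (hf N A hind).chromaticNumber_le

end Pool.Agent.Results.MP_763321_co.ToeplitzGraphs
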